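import Mathlib

/-!
# A PFA-computable language whose syntactic convex monoid is not finitely presentable

Convex sets are algebras of the finitely supported distribution monad, i.e. Mathlib's
`Convexity.ConvexSpace ℝ`; finitely supported distributions are `Convexity.StdSimplex ℝ X`.
-/

namespace Pool.Agent.Results.MP_492578_lc.NotFinPres

open Convexity

noncomputable section

/-- A convex monoid: a convex set (algebra for the finitely supported distribution monad) with
a monoid structure whose multiplication is affine in each variable. -/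
class ConvexMonoid (M : Type) extends Monoid M, ConvexSpace ℝ M where
  /-- multiplication is affine in the right variable -/
  affine_mul_left : ∀ x : M, IsAffineMap ℝ (fun y : M => x * y)
  /-- multiplication is affine in the left variable -/
  affine_mul_right : ∀ x : M, IsAffineMap ℝ (fun y : M => y * x)

/-! ### The convex monoid of finitely supported distributions on a monoid -/

section Dist

lemma iConvexComb_single_self {X : Type} (μ : StdSimplex ℝ X) :
    μ.iConvexComb (fun x => (StdSimplex.single x : StdSimplex ℝ X)) = μ := by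
  ext x
  simp [StdSimplex.weights_iConvexComb]

lemma map_eq_iConvexComb {X Y : Type} (μ : StdSimplex ℝ X) (f : X → Y) :
    μ.map f = μ.iConvexComb (fun x => (StdSimplex.single (f x) : StdSimplex ℝ Y)) := by
  have := congrArg (fun m => StdSimplex.map f m) (iConvexComb_single_self μ)
  simp only [map_iConvexComb] at this
  rw [← this]
  congr 1
  funext x
  simp

/-- Two affine maps out of a space of distributions that agree on point masses are equal. -/
lemma affine_ext {X M : Type} [ConvexSpace ℝ M] {f g : StdSimplex ℝ X → M}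
    (hf : IsAffineMap ℝ f) (hg : IsAffineMap ℝ g)
    (h : ∀ x, f (StdSimplex.single x) = g (StdSimplex.single x)) (μ : StdSimplex ℝ X) :
    f μ = g μ := by
  rw [← iConvexComb_single_self μ, hf.map_iConvexComb, hg.map_iConvexComb]
  congr 1
  funext x
  exact h x

variable {N : Type} [Monoid N]

/-- The product of two distributions on a monoid: the law of `x * y` for independent `x`, `y`;
this is the bi-affine extension of the multiplication. -/
def distMul (μ ν : StdSimplex ℝ N) : StdSimplex ℝ N :=
  μ.iConvexComb (fun x => ν.map (fun y => x * y))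

lemma isAffineMap_iConvexComb {X M : Type} [ConvexSpace ℝ M] (e : X → M) :
    IsAffineMap ℝ (fun μ : StdSimplex ℝ X => μ.iConvexComb e) where
  map_sConvexComb s := by
    show s.sConvexComb.iConvexComb e = _
    rw [sConvexComb_map, iConvexComb_assoc, iConvexComb_id']

lemma isAffineMap_distMul_right (ν : StdSimplex ℝ N) :
    IsAffineMap ℝ (fun μ : StdSimplex ℝ N => distMul μ ν) :=
  isAffineMap_iConvexComb _

lemma isAffineMap_distMul_left (μ : StdSimplex ℝ N) :
    IsAffineMap ℝ (fun ν : StdSimplex ℝ N => distMul μ ν) where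
  map_sConvexComb s := by
    show μ.iConvexComb (fun x => s.sConvexComb.map (fun y => x * y)) =
      (s.map (fun ν => μ.iConvexComb (fun x => ν.map (fun y => x * y)))).sConvexComb
    rw [sConvexComb_map]
    have h1 : ∀ x : N, s.sConvexComb.map (fun y => x * y) =
        s.iConvexComb (fun ν => ν.map (fun y => x * y)) := by
      intro x
      rw [StdSimplex.map_sConvexComb]; rfl
    simp only [h1]
    rw [iConvexComb_comm]

lemma distMul_single_single (x y : N) :
    distMul (StdSimplex.single x) (StdSimplex.single y) = StdSimplex.single (x * y) := by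
  simp [distMul]

instance instConvexMonoidDist : ConvexMonoid (StdSimplex ℝ N) where
  mul := distMul
  one := StdSimplex.single 1
  mul_assoc := by
    intro a b c
    show distMul (distMul a b) c = distMul a (distMul b c)
    refine affine_ext (f := fun a => distMul (distMul a b) c) (g := fun a => distMul a (distMul b c))
      ((isAffineMap_distMul_right c).comp (isAffineMap_distMul_right b))
      (isAffineMap_distMul_right _) (fun x => ?_) a
    refine affine_ext (f := fun b => distMul (distMul (StdSimplex.single x) b) c)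
      (g := fun b => distMul (StdSimplex.single x) (distMul b c))
      ((isAffineMap_distMul_right c).comp (isAffineMap_distMul_left _))
      ((isAffineMap_distMul_left _).comp (isAffineMap_distMul_right c)) (fun y => ?_) b
    refine affine_ext (f := fun c => distMul (distMul (StdSimplex.single x) (StdSimplex.single y)) c)
      (g := fun c => distMul (StdSimplex.single x) (distMul (StdSimplex.single y) c))
      (isAffineMap_distMul_left _)
      ((isAffineMap_distMul_left _).comp (isAffineMap_distMul_left _)) (fun z => ?_) c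
    simp [distMul_single_single, mul_assoc]
  one_mul := by
    intro a
    show distMul (StdSimplex.single 1) a = a
    simp only [distMul, iConvexComb_single, one_mul]
    exact StdSimplex.map_id a
  mul_one := by
    intro a
    show distMul a (StdSimplex.single 1) = a
    simp [distMul, iConvexComb_single_self]
  affine_mul_left := isAffineMap_distMul_left
  affine_mul_right := isAffineMap_distMul_right

/-- The distributions on words over `G` form the free convex monoid on `G`: every map from `G`
to a convex monoid extends uniquely to an affine monoid homomorphism. -/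
theorem free_universal {G M : Type} [ConvexMonoid M] (f : G → M) :
    ∃! φ : StdSimplex ℝ (FreeMonoid G) →* M, IsAffineMap ℝ φ ∧
      ∀ g, φ (StdSimplex.single (FreeMonoid.of g)) = f g := by
  have hmul : ∀ μ ν : StdSimplex ℝ (FreeMonoid G),
      (μ * ν).iConvexComb (fun w => FreeMonoid.lift f w) =
        μ.iConvexComb (fun w => FreeMonoid.lift f w) *
          ν.iConvexComb (fun w => FreeMonoid.lift f w) := by
    intro μ ν
    refine affine_ext (f := fun μ => (μ * ν).iConvexComb (fun w => FreeMonoid.lift f w))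
      (g := fun μ => μ.iConvexComb (fun w => FreeMonoid.lift f w) *
          ν.iConvexComb (fun w => FreeMonoid.lift f w))
      ((isAffineMap_iConvexComb _).comp (ConvexMonoid.affine_mul_right ν))
      ((ConvexMonoid.affine_mul_right _).comp (isAffineMap_iConvexComb _)) (fun x => ?_) μ
    refine affine_ext (f := fun ν => (StdSimplex.single x * ν).iConvexComb
        (fun w => FreeMonoid.lift f w))
      (g := fun ν => (StdSimplex.single x : StdSimplex ℝ (FreeMonoid G)).iConvexComb
          (fun w => FreeMonoid.lift f w) * ν.iConvexComb (fun w => FreeMonoid.lift f w))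
      ((isAffineMap_iConvexComb _).comp (ConvexMonoid.affine_mul_left _))
      ((ConvexMonoid.affine_mul_left _).comp (isAffineMap_iConvexComb _)) (fun y => ?_) ν
    have h : (StdSimplex.single x * StdSimplex.single y : StdSimplex ℝ (FreeMonoid G)) =
        StdSimplex.single (x * y) := distMul_single_single x y
    simp [h]
  refine ⟨{ toFun := fun μ => μ.iConvexComb (fun w => FreeMonoid.lift f w)
            map_one' := ?_
            map_mul' := hmul }, ⟨isAffineMap_iConvexComb _, ?_⟩, ?_⟩
  · show (StdSimplex.single (1 : FreeMonoid G) : StdSimplex ℝ (FreeMonoid G)).iConvexComb _ = _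
    simp
  · intro g
    show (StdSimplex.single (FreeMonoid.of g) : StdSimplex ℝ (FreeMonoid G)).iConvexComb _ = _
    simp
  · rintro ψ ⟨hψ, hψg⟩
    have hw : ∀ w : FreeMonoid G, ψ (StdSimplex.single w) = FreeMonoid.lift f w := by
      intro w
      induction w using FreeMonoid.inductionOn' with
      | one =>
        have : (StdSimplex.single (1 : FreeMonoid G) : StdSimplex ℝ (FreeMonoid G)) = 1 := rfl
        rw [this, map_one, map_one]
      | of_mul x w ih =>
        have : (StdSimplex.single (FreeMonoid.of x * w) : StdSimplex ℝ (FreeMonoid G)) =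
          (StdSimplex.single (FreeMonoid.of x) : StdSimplex ℝ (FreeMonoid G)) *
            (StdSimplex.single w : StdSimplex ℝ (FreeMonoid G)) :=
            (distMul_single_single _ _).symm
        rw [this, map_mul, ih, hψg, map_mul, FreeMonoid.lift_eval_of]
    ext μ
    refine affine_ext (f := ψ) (g := fun μ => μ.iConvexComb (fun w => FreeMonoid.lift f w))
      hψ (isAffineMap_iConvexComb _) (fun x => ?_) μ
    simp [hw]

end Dist

/-! ### Congruences, quotients, finite presentability -/

/-- A congruence of convex monoids: a monoid congruence compatible with all the operations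
`x +_s y = s x + (1-s) y` (here `s + t = 1`). -/
structure ConvexMonoidCon (M : Type) [ConvexMonoid M] extends Con M where
  /-- compatibility with the binary convex combinations -/
  comb' : ∀ (s t : ℝ) (hs : 0 ≤ s) (ht : 0 ≤ t) (hst : s + t = 1) {x x' y y' : M},
    toCon x x' → toCon y y' →
      toCon (convexCombPair s t hs ht hst x y) (convexCombPair s t hs ht hst x' y')

namespace ConvexMonoidCon

variable {M : Type} [ConvexMonoid M] (c : ConvexMonoidCon M)

lemma iConvexComb_rel {I : Type} (w : StdSimplex ℝ I) (f g : I → M)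
    (h : ∀ i, c.toCon (f i) (g i)) : c.toCon (w.iConvexComb f) (w.iConvexComb g) := by
  have hS : IsConvexSet ℝ {p : M × M | c.toCon p.1 p.2} := by
    refine IsConvexSet.of_convexCombPair_mem ?_
    intro a b ha hb hab x hx y hy
    simp only [Set.mem_ofPred_eq, Prod.fst_convexCombPair, Prod.snd_convexCombPair]
    exact c.comb' a b ha hb hab hx hy
  have := hS.iConvexComb_mem (w := w) (f := fun i => (f i, g i)) (fun i _ => h i)
  simpa using this

/-- The underlying type of the quotient convex monoid `M / c`. -/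
abbrev Quot : Type := c.toCon.Quotient

/-- A representative of a class. -/
def rep (q : c.Quot) : M := Quotient.out (s := c.toCon.toSetoid) q

@[simp] lemma coe_rep (q : c.Quot) : ((c.rep q : M) : c.Quot) = q :=
  Quotient.out_eq (s := c.toCon.toSetoid) q

lemma rep_coe (a : M) : c.toCon (c.rep (a : c.Quot)) a :=
  (Con.eq c.toCon).1 (c.coe_rep (a : c.Quot))

/-- The convex combination operation on the quotient is computed on representatives. -/
instance instConvexSpaceQuot : ConvexSpace ℝ c.Quot := ConvexSpace.mk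
    (fun w => (((w.map c.rep).sConvexComb : M) : c.Quot))
    (by
      intro x
      rw [StdSimplex.map_single, sConvexComb_single, coe_rep])
    (by
      intro f
      rw [StdSimplex.map_map, StdSimplex.map_sConvexComb, sConvexComb_sConvexComb,
        StdSimplex.map_map]
      refine (Con.eq c.toCon).2 ?_
      exact c.iConvexComb_rel f _ _ (fun i => c.rep_coe _))

lemma sConvexComb_def (w : StdSimplex ℝ c.Quot) :
    w.sConvexComb = (((w.map c.rep).sConvexComb : M) : c.Quot) := rfl

/-- The quotient map is affine. -/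
lemma isAffineMap_mk : IsAffineMap ℝ (fun x : M => (x : c.Quot)) where
  map_sConvexComb s := by
    rw [sConvexComb_def, StdSimplex.map_map]
    refine (Con.eq c.toCon).2 ?_
    have h := c.iConvexComb_rel s (fun x => x) (fun x => c.rep (x : c.Quot))
      (fun x => c.symm (c.rep_coe x))
    rw [iConvexComb_id'] at h
    exact h

instance instConvexMonoidQuot : ConvexMonoid c.Quot where
  affine_mul_left q := by
    constructor
    intro s
    have h := (ConvexMonoid.affine_mul_left (c.rep q)).map_sConvexComb (s.map c.rep)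
    have h2 : (q * s.sConvexComb : c.Quot) =
        (((c.rep q) * (s.map c.rep).sConvexComb : M) : c.Quot) := by
      rw [Con.coe_mul, coe_rep, ← sConvexComb_def]
    show q * s.sConvexComb = _
    rw [h2]
    have h3 : ((c.rep q * (s.map c.rep).sConvexComb : M) : c.Quot) =
        ((((s.map c.rep).map (fun y => c.rep q * y)).sConvexComb : M) : c.Quot) :=
      congrArg (fun x : M => (x : c.Quot)) h
    rw [h3, c.isAffineMap_mk.map_sConvexComb, StdSimplex.map_map, StdSimplex.map_map]
    congr 2
    funext x
    rw [Con.coe_mul, coe_rep, coe_rep]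
  affine_mul_right q := by
    constructor
    intro s
    have h := (ConvexMonoid.affine_mul_right (c.rep q)).map_sConvexComb (s.map c.rep)
    have h2 : (s.sConvexComb * q : c.Quot) =
        (((s.map c.rep).sConvexComb * (c.rep q) : M) : c.Quot) := by
      rw [Con.coe_mul, coe_rep, ← sConvexComb_def]
    show s.sConvexComb * q = _
    rw [h2]
    have h3 : (((s.map c.rep).sConvexComb * c.rep q : M) : c.Quot) =
        ((((s.map c.rep).map (fun y => y * c.rep q)).sConvexComb : M) : c.Quot) :=
      congrArg (fun x : M => (x : c.Quot)) h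
    rw [h3, c.isAffineMap_mk.map_sConvexComb, StdSimplex.map_map, StdSimplex.map_map]
    congr 2
    funext x
    rw [Con.coe_mul, coe_rep, coe_rep]

/-- The congruence generated by a set of pairs: the smallest congruence of convex monoids
containing all of them. -/
def gen (R : Set (M × M)) : ConvexMonoidCon M where
  r x y := ∀ c : ConvexMonoidCon M, (∀ p ∈ R, c.toCon p.1 p.2) → c.toCon x y
  iseqv := ⟨fun x c _ => c.refl x, fun h c hc => c.symm (h c hc),
    fun h h' c hc => c.trans (h c hc) (h' c hc)⟩
  mul' h h' c hc := c.mul (h c hc) (h' c hc)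
  comb' s t hs ht hst _ _ _ _ h h' c hc := c.comb' s t hs ht hst (h c hc) (h' c hc)

end ConvexMonoidCon

/-- Two convex monoids are isomorphic. -/
def Isomorphic (M N : Type) [ConvexMonoid M] [ConvexMonoid N] : Prop :=
  ∃ f : M ≃* N, IsAffineMap ℝ f

/-- A convex monoid is finitely presentable if it is isomorphic to the quotient of the free
convex monoid on a finite set `G` (the finitely supported distributions on words over `G`) by
the congruence generated by finitely many pairs. -/
def FinitelyPresentable (M : Type) [ConvexMonoid M] : Prop :=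
  ∃ (G : Type) (_ : Finite G)
    (R : Set (StdSimplex ℝ (FreeMonoid G) × StdSimplex ℝ (FreeMonoid G))),
    R.Finite ∧ Isomorphic (ConvexMonoidCon.gen R).Quot M

/-! ### Probabilistic languages, PFAs and the syntactic convex monoid -/

section Languages

variable {A : Type}

/-- The affine extension of a probabilistic language `L` to distributions on words. -/
def extend (L : FreeMonoid A → unitInterval) (μ : StdSimplex ℝ (FreeMonoid A)) : ℝ :=
  μ.weights.sum fun w r => r * (L w : ℝ)

lemma isAffineMap_extend (L : FreeMonoid A → unitInterval) : IsAffineMap ℝ (extend L) := by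
  have h : extend L = fun μ => μ.iConvexComb (fun w => (L w : ℝ)) := by
    funext μ
    rw [iConvexComb, sConvexComb_eq_sum]
    simp [extend, Finsupp.sum_mapDomain_index, add_mul]
  rw [h]
  exact isAffineMap_iConvexComb _

lemma extend_congr (L : FreeMonoid A → unitInterval) {μ ν : StdSimplex ℝ (FreeMonoid A)}
    (h : ∀ x y : FreeMonoid A, extend L (StdSimplex.single x * μ * StdSimplex.single y) =
      extend L (StdSimplex.single x * ν * StdSimplex.single y))
    (α β : StdSimplex ℝ (FreeMonoid A)) : extend L (α * μ * β) = extend L (α * ν * β) := by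
  refine affine_ext (f := fun α => extend L (α * μ * β)) (g := fun α => extend L (α * ν * β))
    ((isAffineMap_extend L).comp ((ConvexMonoid.affine_mul_right β).comp
      (ConvexMonoid.affine_mul_right μ)))
    ((isAffineMap_extend L).comp ((ConvexMonoid.affine_mul_right β).comp
      (ConvexMonoid.affine_mul_right ν))) (fun x => ?_) α
  refine affine_ext (f := fun β => extend L (StdSimplex.single x * μ * β))
    (g := fun β => extend L (StdSimplex.single x * ν * β))
    ((isAffineMap_extend L).comp (ConvexMonoid.affine_mul_left _))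
    ((isAffineMap_extend L).comp (ConvexMonoid.affine_mul_left _)) (fun y => ?_) β
  exact h x y

/-- The syntactic congruence of a probabilistic language `L`:
`μ ≈ ν` iff `L(xμy) = L(xνy)` for all words `x, y`. -/
def syntacticCon (L : FreeMonoid A → unitInterval) :
    ConvexMonoidCon (StdSimplex ℝ (FreeMonoid A)) where
  r μ ν := ∀ x y : FreeMonoid A,
    extend L (StdSimplex.single x * μ * StdSimplex.single y) =
      extend L (StdSimplex.single x * ν * StdSimplex.single y)
  iseqv := ⟨fun _ _ _ => rfl, fun h x y => (h x y).symm, fun h h' x y => (h x y).trans (h' x y)⟩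
  mul' := by
    intro μ ν μ' ν' h h' x y
    rw [← mul_assoc, mul_assoc _ μ' _, extend_congr L h, ← mul_assoc, extend_congr L h',
      ← mul_assoc]
  comb' := by
    intro s t hs ht hst μ μ' ν ν' h h' x y
    have key : ∀ ρ : StdSimplex ℝ (FreeMonoid A), ∀ ρ' : StdSimplex ℝ (FreeMonoid A),
        extend L (StdSimplex.single x * convexCombPair s t hs ht hst ρ ρ' *
          StdSimplex.single y) = convexCombPair s t hs ht hst
            (extend L (StdSimplex.single x * ρ * StdSimplex.single y))
            (extend L (StdSimplex.single x * ρ' * StdSimplex.single y)) := by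
      intro ρ ρ'
      exact ((isAffineMap_extend L).comp
        ((ConvexMonoid.affine_mul_right (StdSimplex.single y)).comp
          (ConvexMonoid.affine_mul_left (StdSimplex.single x)))).map_convexCombPair hs ht hst ρ ρ'
    rw [key, key, h x y, h' x y]

/-- The syntactic convex monoid of a probabilistic language. -/
abbrev Syn (L : FreeMonoid A → unitInterval) : Type := (syntacticCon L).Quot

/-- A probabilistic finite automaton over the alphabet `A` with state set `Q`: an initial
distribution, a transition distribution for each state and letter, an output map. -/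
structure PFA (A Q : Type) where
  /-- initial distribution -/
  init : StdSimplex ℝ Q
  /-- transition distributions -/
  step : Q → A → StdSimplex ℝ Q
  /-- output map -/
  out : Q → unitInterval

/-- The distribution of the state reached by the random run on `w`. -/
def PFA.run {Q : Type} (P : PFA A Q) (w : List A) : StdSimplex ℝ Q :=
  w.foldl (fun d a => d.iConvexComb (fun q => P.step q a)) P.init

/-- The value assigned to `w`: the expected output at the state reached by the random run. -/
def PFA.value {Q : Type} (P : PFA A Q) (w : List A) : ℝ :=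
  (P.run w).weights.sum fun q r => r * (P.out q : ℝ)

/-- `L` is PFA-computable: some PFA with finitely many states assigns `L w` to every `w`. -/
def PFAComputable (L : FreeMonoid A → unitInterval) : Prop :=
  ∃ (Q : Type) (_ : Finite Q) (P : PFA A Q), ∀ w : FreeMonoid A, P.value w.toList = (L w : ℝ)

end Languages

/-! ### Characters and moments -/

section Moments

variable {N : Type} [Monoid N]

/-- The expectation of a multiplicative character. -/
def ev (χ : N →* ℝ) (μ : StdSimplex ℝ N) : ℝ := μ.weights.sum fun w r => r * χ w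

lemma isAffineMap_ev (χ : N →* ℝ) : IsAffineMap ℝ (ev χ) := by
  have h : ev χ = fun μ => μ.iConvexComb (fun w => χ w) := by
    funext μ
    rw [iConvexComb, sConvexComb_eq_sum]
    simp [ev, Finsupp.sum_mapDomain_index, add_mul]
  rw [h]
  exact isAffineMap_iConvexComb _

@[simp] lemma ev_single (χ : N →* ℝ) (w : N) : ev χ (StdSimplex.single w) = χ w := by
  simp [ev]

lemma isAffineMap_mul_const (c : ℝ) : IsAffineMap ℝ (fun x : ℝ => x * c) where
  map_sConvexComb s := by
    simp [sConvexComb_eq_sum, Finsupp.sum_mapDomain_index, add_mul, Finsupp.sum_mul, mul_assoc]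

lemma isAffineMap_const_mul (c : ℝ) : IsAffineMap ℝ (fun x : ℝ => c * x) where
  map_sConvexComb s := by
    simp [sConvexComb_eq_sum, Finsupp.sum_mapDomain_index, add_mul, Finsupp.mul_sum,
      mul_left_comm]

lemma ev_mul (χ : N →* ℝ) (μ ν : StdSimplex ℝ N) : ev χ (μ * ν) = ev χ μ * ev χ ν := by
  refine affine_ext (f := fun μ => ev χ (μ * ν)) (g := fun μ => ev χ μ * ev χ ν)
    ((isAffineMap_ev χ).comp (ConvexMonoid.affine_mul_right ν))
    ((isAffineMap_mul_const _).comp (isAffineMap_ev χ)) (fun x => ?_) μ
  refine affine_ext (f := fun ν => ev χ (StdSimplex.single x * ν))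
    (g := fun ν => ev χ (StdSimplex.single x) * ev χ ν)
    ((isAffineMap_ev χ).comp (ConvexMonoid.affine_mul_left _))
    ((isAffineMap_const_mul _).comp (isAffineMap_ev χ)) (fun y => ?_) ν
  have h : (StdSimplex.single x * StdSimplex.single y : StdSimplex ℝ N) =
      StdSimplex.single (x * y) := distMul_single_single x y
  simp [h]

end Moments

/-! ### Supports -/

section Supports

/-- The support of a distribution. -/
def supp {X : Type} (μ : StdSimplex ℝ X) : Set X := {x | μ.weights x ≠ 0}

lemma supp_nonempty {X : Type} (μ : StdSimplex ℝ X) : (supp μ).Nonempty := by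
  obtain ⟨x, hx⟩ := μ.support_weights_nonempty
  exact ⟨x, by simpa [supp] using hx⟩

lemma supp_finite {X : Type} (μ : StdSimplex ℝ X) : (supp μ).Finite := by
  refine (μ.weights.support.finite_toSet).subset ?_
  intro x hx
  simpa [supp] using hx

lemma supp_iConvexComb {X I : Type} (w : StdSimplex ℝ I) (f : I → StdSimplex ℝ X) :
    supp (w.iConvexComb f) = {x | ∃ i ∈ supp w, x ∈ supp (f i)} := by
  ext x
  have h : (w.iConvexComb f).weights x = ∑ i ∈ w.weights.support, w.weights i * (f i).weights x := by
    rw [iConvexComb, StdSimplex.weights_sConvexComb, StdSimplex.weights_map,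
      Finsupp.sum_mapDomain_index (by simp) (by intros; simp [add_smul])]
    simp [Finsupp.sum, Finsupp.finsetSum_apply]
  have hnn : ∀ i ∈ w.weights.support, 0 ≤ w.weights i * (f i).weights x :=
    fun i _ => mul_nonneg (w.weights_nonneg i) ((f i).weights_nonneg x)
  show (w.iConvexComb f).weights x ≠ 0 ↔ _
  rw [h, Ne, Finset.sum_eq_zero_iff_of_nonneg hnn]
  simp [supp]

lemma supp_map {X Y : Type} (μ : StdSimplex ℝ X) (g : X → Y) : supp (μ.map g) = g '' supp μ := by
  rw [map_eq_iConvexComb, supp_iConvexComb]
  ext y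
  simp only [supp, StdSimplex.weights_single]
  constructor
  · rintro ⟨x, hx, hy⟩
    refine ⟨x, hx, ?_⟩
    by_contra hne
    exact hy (by simp [hne])
  · rintro ⟨x, hx, rfl⟩
    exact ⟨x, hx, by simp⟩

lemma supp_mul {N : Type} [Monoid N] (μ ν : StdSimplex ℝ N) :
    supp (μ * ν) = {z | ∃ x ∈ supp μ, ∃ y ∈ supp ν, x * y = z} := by
  show supp (distMul μ ν) = _
  rw [distMul, supp_iConvexComb]
  ext z
  simp only [supp_map]
  rfl

lemma supp_pair {X : Type} (s t : ℝ) (hs : 0 ≤ s) (ht : 0 ≤ t) (hst : s + t = 1)
    (μ ν : StdSimplex ℝ X) :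
    supp (convexCombPair s t hs ht hst μ ν) =
      {x | (s ≠ 0 ∧ x ∈ supp μ) ∨ (t ≠ 0 ∧ x ∈ supp ν)} := by
  ext x
  simp only [supp, StdSimplex.weights_convexCombPair]
  have h1 := mul_nonneg hs (μ.weights_nonneg x)
  have h2 := mul_nonneg ht (ν.weights_nonneg x)
  show s * μ.weights x + t * ν.weights x ≠ 0 ↔ (s ≠ 0 ∧ μ.weights x ≠ 0) ∨ (t ≠ 0 ∧ ν.weights x ≠ 0)
  rw [← mul_ne_zero_iff, ← mul_ne_zero_iff]
  constructor
  · intro h
    by_contra hcon
    push Not at hcon
    exact h (by rw [hcon.1, hcon.2, add_zero])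
  · rintro (h | h) h0
    · exact h (by linarith)
    · exact h (by linarith)

/-- For any predicate `good` on words, the relation (for all contexts `a, b`: all words of
`a μ b` are good iff all words of `a ν b` are good) is a congruence of convex monoids. -/
def faceCon {N : Type} [Monoid N] (good : N → Prop) : ConvexMonoidCon (StdSimplex ℝ N) where
  r μ ν := ∀ a b : N, (∀ x ∈ supp μ, good (a * x * b)) ↔ (∀ x ∈ supp ν, good (a * x * b))
  iseqv := ⟨fun _ _ _ => Iff.rfl, fun h a b => (h a b).symm, fun h h' a b => (h a b).trans (h' a b)⟩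
  mul' := by
    intro μ ν μ' ν' h h' a b
    rw [supp_mul, supp_mul]
    constructor
    · rintro H _ ⟨x, hx, y, hy, rfl⟩
      have h1 : ∀ y ∈ supp μ', ∀ x ∈ supp ν, good (a * x * (y * b)) := by
        intro y hy
        refine (h a (y * b)).1 ?_
        intro x hx
        have := H _ ⟨x, hx, y, hy, rfl⟩
        simpa [mul_assoc] using this
      have h2 : ∀ y ∈ supp ν', good ((a * x) * y * b) := by
        refine (h' (a * x) b).1 ?_
        intro y hy
        have := h1 y hy x hx
        simpa [mul_assoc] using this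
      have := h2 y hy
      simpa [mul_assoc] using this
    · rintro H _ ⟨x, hx, y, hy, rfl⟩
      have h1 : ∀ y ∈ supp ν', ∀ x ∈ supp μ, good (a * x * (y * b)) := by
        intro y hy
        refine (h a (y * b)).2 ?_
        intro x hx
        have := H _ ⟨x, hx, y, hy, rfl⟩
        simpa [mul_assoc] using this
      have h2 : ∀ y ∈ supp μ', good ((a * x) * y * b) := by
        refine (h' (a * x) b).2 ?_
        intro y hy
        have := h1 y hy x hx
        simpa [mul_assoc] using this
      have := h2 y hy
      simpa [mul_assoc] using this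
  comb' := by
    intro s t hs ht hst μ μ' ν ν' h h' a b
    rw [supp_pair, supp_pair]
    constructor
    · rintro H x (⟨hs0, hx⟩ | ⟨ht0, hx⟩)
      · exact (h a b).1 (fun x hx => H x (Or.inl ⟨hs0, hx⟩)) x hx
      · exact (h' a b).1 (fun x hx => H x (Or.inr ⟨ht0, hx⟩)) x hx
    · rintro H x (⟨hs0, hx⟩ | ⟨ht0, hx⟩)
      · exact (h a b).2 (fun x hx => H x (Or.inl ⟨hs0, hx⟩)) x hx
      · exact (h' a b).2 (fun x hx => H x (Or.inr ⟨ht0, hx⟩)) x hx

end Supports

/-! ### Expectations and the equality case of Jensen's inequality -/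

section Jensen

variable {X : Type}

/-- Expectation of a real function. -/
def expect (μ : StdSimplex ℝ X) (a : X → ℝ) : ℝ := μ.weights.sum fun x r => r * a x

lemma affine_eq_expect {f : StdSimplex ℝ X → ℝ} (hf : IsAffineMap ℝ f) (μ : StdSimplex ℝ X) :
    f μ = expect μ (fun x => f (StdSimplex.single x)) := by
  have h : (fun μ : StdSimplex ℝ X => expect μ (fun x => f (StdSimplex.single x))) =
      fun μ => μ.iConvexComb (fun x => f (StdSimplex.single x)) := by
    funext μ
    rw [iConvexComb, sConvexComb_eq_sum]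
    simp [expect, Finsupp.sum_mapDomain_index, add_mul]
  have h2 : IsAffineMap ℝ
      (fun μ : StdSimplex ℝ X => expect μ (fun x => f (StdSimplex.single x))) := by
    rw [h]; exact isAffineMap_iConvexComb _
  exact affine_ext hf h2 (fun x => by simp [expect]) μ

lemma variance_identity (μ : StdSimplex ℝ X) (a b : X → ℝ) :
    expect μ b - (expect μ a) ^ 2 =
      ∑ x ∈ μ.weights.support, μ.weights x * ((b x - a x ^ 2) + (a x - expect μ a) ^ 2) := by
  set e := expect μ a with he
  have ht : ∑ x ∈ μ.weights.support, μ.weights x = 1 := μ.total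
  have h1 : ∑ x ∈ μ.weights.support, μ.weights x * a x = e := rfl
  have h2 : expect μ b = ∑ x ∈ μ.weights.support, μ.weights x * b x := rfl
  have h3 : ∀ x, μ.weights x * ((b x - a x ^ 2) + (a x - e) ^ 2) =
      μ.weights x * b x - 2 * e * (μ.weights x * a x) + e ^ 2 * μ.weights x := by
    intro x; ring
  simp only [h3, Finset.sum_add_distrib, Finset.sum_sub_distrib, ← Finset.mul_sum, ht, h1, h2]
  ring

lemma jensen_le (μ : StdSimplex ℝ X) (a b : X → ℝ) (hab : ∀ x, a x ^ 2 ≤ b x) :
    (expect μ a) ^ 2 ≤ expect μ b := by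
  have h := variance_identity μ a b
  have h2 : 0 ≤ expect μ b - (expect μ a) ^ 2 := by
    rw [h]
    refine Finset.sum_nonneg (fun x _ => mul_nonneg (μ.weights_nonneg x) ?_)
    exact add_nonneg (sub_nonneg.2 (hab x)) (sq_nonneg _)
  linarith

lemma jensen_eq (μ : StdSimplex ℝ X) (a b : X → ℝ) (hab : ∀ x, a x ^ 2 ≤ b x)
    (h : expect μ b = (expect μ a) ^ 2) {x : X} (hx : x ∈ supp μ) :
    a x = expect μ a ∧ b x = a x ^ 2 := by
  have h1 := variance_identity μ a b
  rw [h, sub_self] at h1
  have hnn : ∀ x ∈ μ.weights.support,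
      0 ≤ μ.weights x * ((b x - a x ^ 2) + (a x - expect μ a) ^ 2) := fun x _ =>
    mul_nonneg (μ.weights_nonneg x) (add_nonneg (sub_nonneg.2 (hab x)) (sq_nonneg _))
  have h2 := (Finset.sum_eq_zero_iff_of_nonneg hnn).1 h1.symm x
    (by simpa [supp] using hx)
  rcases mul_eq_zero.1 h2 with h3 | h3
  · exact absurd h3 hx
  · have h4 := (add_eq_zero_iff_of_nonneg (sub_nonneg.2 (hab x)) (sq_nonneg _)).1 h3
    exact ⟨by have := pow_eq_zero_iff (two_ne_zero) |>.1 h4.2; linarith, by linarith [h4.1]⟩

lemma expect_const_on {μ : StdSimplex ℝ X} {a : X → ℝ} {c : ℝ} (h : ∀ x ∈ supp μ, a x = c) :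
    expect μ a = c := by
  have : expect μ a = ∑ x ∈ μ.weights.support, μ.weights x * c := by
    refine Finset.sum_congr rfl (fun x hx => ?_)
    show μ.weights x * a x = _
    rw [h x (by simpa [supp] using hx)]
  rw [this, ← Finset.sum_mul]
  have ht : ∑ x ∈ μ.weights.support, μ.weights x = 1 := μ.total
  rw [ht, one_mul]

end Jensen

/-! ### The core obstruction, on an arbitrary finitely generated free convex monoid -/

section Core

/-- Suppose `F₁, F₂` are affine multiplicative functionals on the distributions on a monoid `N`,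
with `0 < F₁ ≤ 1` and `F₁² ≤ F₂`, taking the joint values `(2⁻ⁿ, 4⁻ⁿ)` for all `n`.
Then the relation `F₁ μ = F₁ ν, F₂ μ = F₂ ν` is not generated by finitely many pairs. -/
lemma core {N : Type} [Monoid N] (F₁ F₂ : StdSimplex ℝ N → ℝ)
    (hF₁ : IsAffineMap ℝ F₁) (hF₂ : IsAffineMap ℝ F₂)
    (hm₁ : ∀ μ ν, F₁ (μ * ν) = F₁ μ * F₁ ν) (hm₂ : ∀ μ ν, F₂ (μ * ν) = F₂ μ * F₂ ν)
    (h1₁ : F₁ 1 = 1) (h1₂ : F₂ 1 = 1)
    (hpos : ∀ μ, 0 < F₁ μ) (hle : ∀ μ, F₁ μ ≤ 1) (hsq : ∀ μ, F₁ μ ^ 2 ≤ F₂ μ)
    (hsurj : ∀ n : ℕ, ∃ μ, F₁ μ = (1 / 2) ^ n ∧ F₂ μ = (1 / 4) ^ n)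
    (R : Set (StdSimplex ℝ N × StdSimplex ℝ N)) (hR : R.Finite)
    (hgen : ∀ μ ν, (ConvexMonoidCon.gen R).toCon μ ν ↔ (F₁ μ = F₁ ν ∧ F₂ μ = F₂ ν)) : False := by
  classical
  set a : N → ℝ := fun x => F₁ (StdSimplex.single x) with ha
  set b : N → ℝ := fun x => F₂ (StdSimplex.single x) with hb
  have hab : ∀ x, a x ^ 2 ≤ b x := fun x => hsq _
  have hE₁ : ∀ μ, F₁ μ = expect μ a := fun μ => affine_eq_expect hF₁ μ
  have hE₂ : ∀ μ, F₂ μ = expect μ b := fun μ => affine_eq_expect hF₂ μ
  have hsing : ∀ x y : N, (StdSimplex.single (x * y) : StdSimplex ℝ N) =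
      StdSimplex.single x * StdSimplex.single y := fun x y => (distMul_single_single x y).symm
  have hamul : ∀ x y, a (x * y) = a x * a y := by
    intro x y; simp only [ha, hsing, hm₁]
  have hbmul : ∀ x y, b (x * y) = b x * b y := by
    intro x y; simp only [hb, hsing, hm₂]
  have hapos : ∀ x, 0 < a x := fun x => hpos _
  have hale : ∀ x, a x ≤ 1 := fun x => hle _
  have hbpos : ∀ x, 0 < b x := fun x => lt_of_lt_of_le (pow_pos (hapos x) 2) (hab x)
  -- choose the scale `q`
  obtain ⟨ε, hε, hεR⟩ : ∃ ε > 0, ∀ p ∈ R, ∀ x, (x ∈ supp p.1 ∨ x ∈ supp p.2) → ε < a x := by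
    have hfin : (⋃ p ∈ R, (supp p.1 ∪ supp p.2)).Finite :=
      hR.biUnion (fun p _ => (supp_finite p.1).union (supp_finite p.2))
    rcases Set.eq_empty_or_nonempty (⋃ p ∈ R, (supp p.1 ∪ supp p.2)) with he | hne
    · refine ⟨1, one_pos, ?_⟩
      intro p hp x hx
      have : x ∈ ⋃ p ∈ R, (supp p.1 ∪ supp p.2) := Set.mem_biUnion hp hx
      rw [he] at this
      exact this.elim
    · obtain ⟨x₀, hx₀, hmin⟩ := Set.exists_min_image _ a hfin hne
      refine ⟨a x₀ / 2, half_pos (hapos x₀), ?_⟩
      intro p hp x hx
      have : x ∈ ⋃ p ∈ R, (supp p.1 ∪ supp p.2) := Set.mem_biUnion hp hx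
      have h1 := hmin x this
      have h2 := hapos x₀
      linarith
  obtain ⟨j₀, hj₀⟩ : ∃ j : ℕ, (1 / 2 : ℝ) ^ j < ε := exists_pow_lt_of_lt_one hε (by norm_num)
  set j : ℕ := j₀ + 2 with hj
  set q : ℝ := (1 / 2) ^ j with hq
  have hqε : q < ε := by
    refine lt_of_le_of_lt ?_ hj₀
    exact pow_le_pow_of_le_one (by norm_num) (by norm_num) (by omega)
  have hq0 : 0 < q := by positivity
  have hq4 : q ≤ 1 / 4 := by
    have h : q ≤ (1 / 2) ^ 2 := pow_le_pow_of_le_one (by norm_num) (by norm_num) (by omega)
    norm_num at h ⊢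
    exact h
  set good : N → Prop := fun w => b w = a w ^ 2 ∧ (a w = 1 ∨ a w = q) with hgood
  -- one direction of the congruence property for the relators
  have key : ∀ u v : StdSimplex ℝ N, F₁ u = F₁ v → F₂ u = F₂ v → (∀ x ∈ supp u, ε < a x) →
      ∀ c d : N, (∀ x ∈ supp u, good (c * x * d)) → (∀ y ∈ supp v, good (c * y * d)) := by
    intro u v h1 h2 hlarge c d H
    obtain ⟨x₀, hx₀⟩ := supp_nonempty u
    -- each factor is extremal
    have hext : ∀ x ∈ supp u, b c = a c ^ 2 ∧ b x = a x ^ 2 ∧ b d = a d ^ 2 := by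
      intro x hx
      have h := (H x hx).1
      rw [hamul, hamul, hbmul, hbmul] at h
      have e1 := hab c
      have e2 := hab x
      have e3 := hab d
      have p1 := hapos c
      have p2 := hapos x
      have p3 := hapos d
      have q1 := hbpos c
      have q2 := hbpos x
      have q3 := hbpos d
      refine ⟨?_, ?_, ?_⟩
      · by_contra hne
        have hlt : a c ^ 2 < b c := lt_of_le_of_ne e1 (Ne.symm hne)
        have : (a c * a x * a d) ^ 2 < b c * b x * b d := by
          calc (a c * a x * a d) ^ 2 = a c ^ 2 * a x ^ 2 * a d ^ 2 := by ring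
            _ ≤ a c ^ 2 * b x * b d := by gcongr
            _ < b c * b x * b d := by gcongr
        linarith
      · by_contra hne
        have hlt : a x ^ 2 < b x := lt_of_le_of_ne e2 (Ne.symm hne)
        have : (a c * a x * a d) ^ 2 < b c * b x * b d := by
          calc (a c * a x * a d) ^ 2 = a c ^ 2 * a x ^ 2 * a d ^ 2 := by ring
            _ < a c ^ 2 * b x * a d ^ 2 := by gcongr
            _ ≤ b c * b x * b d := by gcongr
        linarith
      · by_contra hne
        have hlt : a d ^ 2 < b d := lt_of_le_of_ne e3 (Ne.symm hne)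
        have : (a c * a x * a d) ^ 2 < b c * b x * b d := by
          calc (a c * a x * a d) ^ 2 = a c ^ 2 * a x ^ 2 * a d ^ 2 := by ring
            _ < a c ^ 2 * a x ^ 2 * b d := by gcongr
            _ ≤ b c * b x * b d := by gcongr
        linarith
    -- `a` is constant on the support of `u`
    have hconst : ∀ x ∈ supp u, a x = a x₀ := by
      have haux : ∀ x ∈ supp u, ∀ y ∈ supp u, a (c * x * d) = 1 → a (c * y * d) = q → False := by
        intro x hx y hy h1 h2
        rw [hamul, hamul] at h1 h2
        have h3 : a y * 1 = q * a x := by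
          rw [← h1, ← h2]; ring
        have h4 := hlarge y hy
        have h5 := hale x
        have h6 : q * a x ≤ q * 1 := by gcongr
        linarith
      intro x hx
      have e : a (c * x * d) = a (c * x₀ * d) := by
        rcases (H x hx).2 with h | h <;> rcases (H x₀ hx₀).2 with h' | h'
        · rw [h, h']
        · exact (haux x hx x₀ hx₀ h h').elim
        · exact (haux x₀ hx₀ x hx h' h).elim
        · rw [h, h']
      rw [hamul, hamul, hamul, hamul] at e
      have hc := (hapos c).ne'
      have hd := (hapos d).ne'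
      exact mul_left_cancel₀ hc (mul_right_cancel₀ hd e)
    have hu₁ : F₁ u = a x₀ := by rw [hE₁]; exact expect_const_on hconst
    have hu₂ : F₂ u = a x₀ ^ 2 := by
      rw [hE₂]; exact expect_const_on (fun x hx => by rw [(hext x hx).2.1, hconst x hx])
    have hv : expect v b = (expect v a) ^ 2 := by
      rw [← hE₂, ← hE₁, ← h1, ← h2, hu₁, hu₂]
    intro y hy
    obtain ⟨hy1, hy2⟩ := jensen_eq v a b hab hv hy
    have hy3 : a y = a x₀ := by rw [hy1, ← hE₁, ← h1, hu₁]
    have hg := H x₀ hx₀
    refine ⟨?_, ?_⟩
    · rw [hbmul, hbmul, hamul, hamul, hy2, (hext x₀ hx₀).1, (hext x₀ hx₀).2.2]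
      ring
    · have : a (c * y * d) = a (c * x₀ * d) := by rw [hamul, hamul, hamul, hamul, hy3]
      rw [this]
      exact hg.2
  have hface : ∀ p ∈ R, (faceCon good).toCon p.1 p.2 := by
    intro p hp c d
    have hpF : F₁ p.1 = F₁ p.2 ∧ F₂ p.1 = F₂ p.2 := (hgen p.1 p.2).1 (fun c hc => hc p hp)
    exact ⟨key p.1 p.2 hpF.1 hpF.2 (fun x hx => hεR p hp x (Or.inl hx)) c d,
      key p.2 p.1 hpF.1.symm hpF.2.symm (fun x hx => hεR p hp x (Or.inr hx)) c d⟩
  -- the two distributions
  obtain ⟨s₁, hs₁, hs₁'⟩ := hsurj 1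
  obtain ⟨sj, hsj, hsj'⟩ := hsurj j
  obtain ⟨sk, hsk, hsk'⟩ := hsurj (j + 1)
  have hqq : (1 / 4 : ℝ) ^ j = q ^ 2 := by
    rw [hq, ← pow_mul, mul_comm, pow_mul]; norm_num
  have hden : 0 < 1 - q ^ 2 := by nlinarith
  set r : ℝ := q * (1 - 2 * q) / (2 * (1 - q ^ 2)) with hr
  set l : ℝ := q * (2 - q) / (1 - q ^ 2) with hl
  have hr0 : 0 ≤ r := by
    rw [hr]; apply div_nonneg <;> nlinarith
  have hr1 : 0 ≤ 1 - r := by
    rw [hr, sub_nonneg, div_le_one (by positivity)]; nlinarith
  have hl0 : 0 < l := by
    rw [hl]; apply div_pos _ hden; nlinarith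
  have hl1 : 0 ≤ 1 - l := by
    rw [hl, sub_nonneg, div_le_one hden]; nlinarith
  have hsum_r : r + (1 - r) = 1 := by ring
  have hsum_l : l + (1 - l) = 1 := by ring
  set η : StdSimplex ℝ N := convexCombPair r (1 - r) hr0 hr1 hsum_r 1 sj with hη
  set ν : StdSimplex ℝ N := convexCombPair l (1 - l) hl0.le hl1 hsum_l s₁ sk with hν
  have hpair : ∀ (s t : ℝ) (hs : 0 ≤ s) (ht : 0 ≤ t) (hst : s + t = 1) (x y : ℝ),
      convexCombPair s t hs ht hst x y = s * x + t * y := by
    intro s t hs ht hst x y
    simp [convexCombPair_eq_sum]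
  have hF₁η : F₁ η = r + (1 - r) * q := by
    rw [hη, hF₁.map_convexCombPair, hpair, h1₁, hsj, mul_one]
  have hF₂η : F₂ η = r + (1 - r) * q ^ 2 := by
    rw [hη, hF₂.map_convexCombPair, hpair, h1₂, hsj', mul_one, hqq]
  have hF₁ν : F₁ ν = l * (1 / 2) + (1 - l) * (q * (1 / 2)) := by
    rw [hν, hF₁.map_convexCombPair, hpair, hs₁, hsk, pow_one, pow_succ]
  have hF₂ν : F₂ ν = l * (1 / 4) + (1 - l) * (q ^ 2 * (1 / 4)) := by
    rw [hν, hF₂.map_convexCombPair, hpair, hs₁', hsk', pow_one, pow_succ, hqq]
  have hrel : (ConvexMonoidCon.gen R).toCon η ν := by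
    rw [hgen, hF₁η, hF₂η, hF₁ν, hF₂ν]
    constructor
    · rw [hr, hl]; field_simp; ring
    · rw [hr, hl]; field_simp; ring
  have hηgood : ∀ x ∈ supp η, good (1 * x * 1) := by
    intro x hx
    rw [one_mul, mul_one]
    rw [hη, supp_pair] at hx
    rcases hx with ⟨_, hx⟩ | ⟨_, hx⟩
    · have hx1 : x = 1 := by
        by_contra hne
        apply hx
        show (StdSimplex.single (1 : N) : StdSimplex ℝ N).weights x = 0
        simp [Ne.symm hne]
      subst hx1
      have e1 : a 1 = 1 := h1₁
      have e2 : b 1 = 1 := h1₂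
      exact ⟨by rw [e1, e2]; norm_num, Or.inl e1⟩
    · have hv : expect sj b = (expect sj a) ^ 2 := by
        rw [← hE₂, ← hE₁, hsj, hsj', hqq]
      obtain ⟨hy1, hy2⟩ := jensen_eq sj a b hab hv hx
      exact ⟨hy2, Or.inr (by rw [hy1, ← hE₁, hsj])⟩
  have hνgood : ∀ x ∈ supp ν, good (1 * x * 1) :=
    (hrel (faceCon good) hface 1 1).1 hηgood
  obtain ⟨x, hx⟩ := supp_nonempty s₁
  have hxν : x ∈ supp ν := by
    rw [hν, supp_pair]
    exact Or.inl ⟨hl0.ne', hx⟩
  have hgx := hνgood x hxν
  rw [one_mul, mul_one] at hgx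
  have hv : expect s₁ b = (expect s₁ a) ^ 2 := by
    rw [← hE₂, ← hE₁, hs₁, hs₁']; norm_num
  obtain ⟨hy1, _⟩ := jensen_eq s₁ a b hab hv hx
  have hax : a x = 1 / 2 := by rw [hy1, ← hE₁, hs₁, pow_one]
  rcases hgx.2 with h | h
  · rw [hax] at h; norm_num at h
  · rw [hax] at h; linarith

end Core

/-! ### The language `L(w) = (2^{-|w|} + 4^{-|w|}) / 2` -/

section TheLanguage

variable {A : Type}

/-- The character `w ↦ c ^ |w|`. -/
def lenChar (c : ℝ) : FreeMonoid A →* ℝ := FreeMonoid.lift (fun _ => c)

lemma lenChar_apply (c : ℝ) (w : FreeMonoid A) : lenChar c w = c ^ w.toList.length := by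
  induction w using FreeMonoid.inductionOn' with
  | one => simp [lenChar]
  | of_mul x w ih =>
    rw [map_mul, ih]
    simp [lenChar, pow_succ, mul_comm]

/-- The language `L(w) = (2^{-|w|} + 4^{-|w|}) / 2`. -/
def theL (w : FreeMonoid A) : unitInterval :=
  ⟨((1 / 2 : ℝ) ^ w.toList.length + (1 / 4 : ℝ) ^ w.toList.length) / 2, by
    have h1 : (1 / 2 : ℝ) ^ w.toList.length ≤ 1 := pow_le_one₀ (by norm_num) (by norm_num)
    have h2 : (1 / 4 : ℝ) ^ w.toList.length ≤ 1 := pow_le_one₀ (by norm_num) (by norm_num)
    have h3 : 0 ≤ (1 / 2 : ℝ) ^ w.toList.length := by positivity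
    have h4 : 0 ≤ (1 / 4 : ℝ) ^ w.toList.length := by positivity
    constructor <;> linarith⟩

lemma extend_theL (μ : StdSimplex ℝ (FreeMonoid A)) :
    extend theL μ = (ev (lenChar (1 / 2)) μ + ev (lenChar (1 / 4)) μ) / 2 := by
  simp only [extend, ev, theL, lenChar_apply, Finsupp.sum]
  rw [← Finset.sum_add_distrib, Finset.sum_div]
  exact Finset.sum_congr rfl (fun x _ => by ring)

lemma syntacticCon_theL_iff [Nonempty A] (μ ν : StdSimplex ℝ (FreeMonoid A)) :
    (syntacticCon (theL (A := A))).toCon μ ν ↔
      (ev (lenChar (1 / 2)) μ = ev (lenChar (1 / 2)) ν ∧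
        ev (lenChar (1 / 4)) μ = ev (lenChar (1 / 4)) ν) := by
  obtain ⟨a⟩ := ‹Nonempty A›
  constructor
  · intro h
    have h1 := h 1 1
    have h2 := h (FreeMonoid.of a) 1
    simp only [extend_theL, ev_mul, ev_single, map_one, one_mul, mul_one] at h1 h2
    have e1 : lenChar (1 / 2) (FreeMonoid.of a) = 1 / 2 := by simp [lenChar]
    have e2 : lenChar (1 / 4) (FreeMonoid.of a) = 1 / 4 := by simp [lenChar]
    rw [e1, e2] at h2
    constructor <;> linarith
  · rintro ⟨h1, h2⟩ x y
    simp only [extend_theL, ev_mul, ev_single]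
    rw [h1, h2]

/-- A three-state PFA computing `theL`: start in state `0` or `1` with probability `1/2` each;
in state `0` survive each step with probability `1/2`, in state `1` with probability `1/4`,
otherwise move to the dead state `2`. -/
def thePFA : PFA A (Fin 3) where
  init := StdSimplex.duple 0 1 (s := 1 / 2) (t := 1 / 2) (by norm_num) (by norm_num) (by norm_num)
  step q _ := if q = 0 then
      StdSimplex.duple 0 2 (s := 1 / 2) (t := 1 / 2) (by norm_num) (by norm_num) (by norm_num)
    else if q = 1 then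
      StdSimplex.duple 1 2 (s := 1 / 4) (t := 3 / 4) (by norm_num) (by norm_num) (by norm_num)
    else StdSimplex.single 2
  out q := if q = 2 then 0 else 1

lemma iConvexComb_weights_fin {I : Type} (d : StdSimplex ℝ (Fin 3)) (f : Fin 3 → StdSimplex ℝ I)
    (x : I) : (d.iConvexComb f).weights x =
      d.weights 0 * (f 0).weights x + d.weights 1 * (f 1).weights x +
        d.weights 2 * (f 2).weights x := by
  have h : (d.iConvexComb f).weights x = ∑ i ∈ d.weights.support, d.weights i * (f i).weights x := by
    rw [iConvexComb, StdSimplex.weights_sConvexComb, StdSimplex.weights_map,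
      Finsupp.sum_mapDomain_index (by simp) (by intros; simp [add_smul])]
    simp [Finsupp.sum, Finsupp.finsetSum_apply]
  have h2 : ∑ i ∈ d.weights.support, d.weights i * (f i).weights x =
      ∑ i : Fin 3, d.weights i * (f i).weights x := by
    refine Finset.sum_subset (Finset.subset_univ _) ?_
    intro i _ hi
    simp only [Finsupp.mem_support_iff, not_not] at hi
    simp [hi]
  rw [h, h2, Fin.sum_univ_three]

lemma run_weights (n : ℕ) (w : List A) (hw : w.length = n) (d : StdSimplex ℝ (Fin 3)) :
    (w.foldl (fun d a => d.iConvexComb (fun q => (thePFA (A := A)).step q a)) d).weights 0 =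
      d.weights 0 * (1 / 2) ^ n ∧
    (w.foldl (fun d a => d.iConvexComb (fun q => (thePFA (A := A)).step q a)) d).weights 1 =
      d.weights 1 * (1 / 4) ^ n := by
  induction n generalizing w d with
  | zero =>
    have : w = [] := List.length_eq_zero_iff.1 hw
    subst this
    simp
  | succ n ih =>
    obtain ⟨a, w, rfl⟩ : ∃ a w', w = a :: w' := by
      cases w with
      | nil => simp at hw
      | cons a w' => exact ⟨a, w', rfl⟩
    simp only [List.length_cons, add_left_inj] at hw
    simp only [List.foldl_cons]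
    have := ih w hw (d.iConvexComb (fun q => (thePFA (A := A)).step q a))
    rw [this.1, this.2, iConvexComb_weights_fin, iConvexComb_weights_fin]
    constructor
    · simp [thePFA]; ring
    · simp [thePFA]; ring

lemma theL_computable : PFAComputable (theL (A := A)) := by
  refine ⟨Fin 3, inferInstance, thePFA, ?_⟩
  intro w
  have h := run_weights (A := A) _ w.toList rfl (thePFA (A := A)).init
  have h2 : (thePFA (A := A)).value w.toList =
      ∑ i : Fin 3, ((thePFA (A := A)).run w.toList).weights i *
        ((thePFA (A := A)).out i : ℝ) := by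
    rw [PFA.value, Finsupp.sum]
    refine Finset.sum_subset (Finset.subset_univ _) ?_
    intro i _ hi
    simp only [Finsupp.mem_support_iff, not_not] at hi
    simp [hi]
  rw [h2, Fin.sum_univ_three]
  have e0 : ((thePFA (A := A)).run w.toList).weights 0 = 1 / 2 * (1 / 2) ^ w.toList.length := by
    rw [PFA.run, h.1]; simp [thePFA]
  have e1 : ((thePFA (A := A)).run w.toList).weights 1 = 1 / 2 * (1 / 4) ^ w.toList.length := by
    rw [PFA.run, h.2]; simp [thePFA]
  rw [e0, e1]
  simp [thePFA, theL]
  ring

end TheLanguage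

/-- For every nonempty alphabet `A` there is a PFA-computable probabilistic language over `A`
whose syntactic convex monoid is not finitely presentable. -/
theorem result (A : Type) [Nonempty A] :
    ∃ L : FreeMonoid A → unitInterval, PFAComputable L ∧ ¬ FinitelyPresentable (Syn L) := by
  refine ⟨theL, theL_computable, ?_⟩
  rintro ⟨G, _, R, hR, hiso⟩
  -- the two moments as functions on the syntactic convex monoid
  let c := syntacticCon (theL (A := A))
  let p₁ : c.Quot → ℝ := fun q => ev (lenChar (1 / 2)) (c.rep q)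
  let p₂ : c.Quot → ℝ := fun q => ev (lenChar (1 / 4)) (c.rep q)
  have hp₁mk : ∀ μ : StdSimplex ℝ (FreeMonoid A), p₁ (μ : c.Quot) = ev (lenChar (1 / 2)) μ :=
    fun μ => ((syntacticCon_theL_iff _ _).1 (c.rep_coe μ)).1
  have hp₂mk : ∀ μ : StdSimplex ℝ (FreeMonoid A), p₂ (μ : c.Quot) = ev (lenChar (1 / 4)) μ :=
    fun μ => ((syntacticCon_theL_iff _ _).1 (c.rep_coe μ)).2
  have haff₁ : IsAffineMap ℝ p₁ := by
    constructor
    intro s
    rw [c.sConvexComb_def, hp₁mk, (isAffineMap_ev _).map_sConvexComb, StdSimplex.map_map]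
  have haff₂ : IsAffineMap ℝ p₂ := by
    constructor
    intro s
    rw [c.sConvexComb_def, hp₂mk, (isAffineMap_ev _).map_sConvexComb, StdSimplex.map_map]
  have hmul₁ : ∀ x y : c.Quot, p₁ (x * y) = p₁ x * p₁ y := by
    intro x y
    have : x * y = ((c.rep x * c.rep y : StdSimplex ℝ (FreeMonoid A)) : c.Quot) := by
      rw [Con.coe_mul, c.coe_rep, c.coe_rep]
    rw [this, hp₁mk, ev_mul]
  have hmul₂ : ∀ x y : c.Quot, p₂ (x * y) = p₂ x * p₂ y := by
    intro x y
    have : x * y = ((c.rep x * c.rep y : StdSimplex ℝ (FreeMonoid A)) : c.Quot) := by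
      rw [Con.coe_mul, c.coe_rep, c.coe_rep]
    rw [this, hp₂mk, ev_mul]
  have hone₁ : p₁ 1 = 1 := by
    have : (1 : c.Quot) = ((1 : StdSimplex ℝ (FreeMonoid A)) : c.Quot) := rfl
    rw [this, hp₁mk]
    show ev _ (StdSimplex.single 1) = 1
    simp
  have hone₂ : p₂ 1 = 1 := by
    have : (1 : c.Quot) = ((1 : StdSimplex ℝ (FreeMonoid A)) : c.Quot) := rfl
    rw [this, hp₂mk]
    show ev _ (StdSimplex.single 1) = 1
    simp
  have hev₁ : ∀ μ : StdSimplex ℝ (FreeMonoid A), ev (lenChar (1 / 2)) μ =
      expect μ (fun w => (1 / 2 : ℝ) ^ w.toList.length) := by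
    intro μ; simp only [ev, expect, lenChar_apply]
  have hev₂ : ∀ μ : StdSimplex ℝ (FreeMonoid A), ev (lenChar (1 / 4)) μ =
      expect μ (fun w => (1 / 4 : ℝ) ^ w.toList.length) := by
    intro μ; simp only [ev, expect, lenChar_apply]
  have hpos₁ : ∀ q : c.Quot, 0 < p₁ q := by
    intro q
    show 0 < ev (lenChar (1 / 2)) (c.rep q)
    rw [hev₁, expect, Finsupp.sum]
    refine Finset.sum_pos (fun x hx => mul_pos ?_ (by positivity)) ?_
    · exact lt_of_le_of_ne ((c.rep q).weights_nonneg x)
        (Ne.symm (by simpa using hx))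
    · exact (c.rep q).support_weights_nonempty
  have hle₁ : ∀ q : c.Quot, p₁ q ≤ 1 := by
    intro q
    show ev (lenChar (1 / 2)) (c.rep q) ≤ 1
    rw [hev₁, expect, Finsupp.sum]
    refine le_trans (Finset.sum_le_sum (g := fun x => (c.rep q).weights x) (fun x _ => ?_))
      (le_of_eq (c.rep q).total)
    have h1 : (1 / 2 : ℝ) ^ x.toList.length ≤ 1 := pow_le_one₀ (by norm_num) (by norm_num)
    have h2 := (c.rep q).weights_nonneg x
    nlinarith
  have hsq₁ : ∀ q : c.Quot, p₁ q ^ 2 ≤ p₂ q := by
    intro q
    show (ev (lenChar (1 / 2)) (c.rep q)) ^ 2 ≤ ev (lenChar (1 / 4)) (c.rep q)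
    rw [hev₁, hev₂]
    refine jensen_le _ _ _ (fun x => ?_)
    rw [← pow_mul, mul_comm, pow_mul]
    norm_num
  have hsep : ∀ q q' : c.Quot, p₁ q = p₁ q' → p₂ q = p₂ q' → q = q' := by
    intro q q' h1 h2
    rw [← c.coe_rep q, ← c.coe_rep q']
    exact (Con.eq _).2 ((syntacticCon_theL_iff _ _).2 ⟨h1, h2⟩)
  let g := ConvexMonoidCon.gen R
  have hiso' : ∃ f : g.Quot ≃* c.Quot, IsAffineMap ℝ f := hiso
  obtain ⟨f, hf⟩ := hiso'
  have hmk : IsAffineMap ℝ (fun μ : StdSimplex ℝ (FreeMonoid G) => (μ : g.Quot)) :=
    g.isAffineMap_mk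
  have hfmk : IsAffineMap ℝ (fun μ : StdSimplex ℝ (FreeMonoid G) => f (μ : g.Quot)) :=
    IsAffineMap.comp (g := f) hf hmk
  refine core (fun μ => p₁ (f (μ : g.Quot))) (fun μ => p₂ (f (μ : g.Quot)))
    (haff₁.comp hfmk) (haff₂.comp hfmk)
    ?_ ?_ ?_ ?_ ?_ ?_ ?_ ?_ R hR ?_
  · intro μ ν
    show p₁ (f ((μ * ν : StdSimplex ℝ (FreeMonoid G)) : g.Quot)) = _
    rw [Con.coe_mul, map_mul, hmul₁]
  · intro μ ν
    show p₂ (f ((μ * ν : StdSimplex ℝ (FreeMonoid G)) : g.Quot)) = _
    rw [Con.coe_mul, map_mul, hmul₂]
  · have : ((1 : StdSimplex ℝ (FreeMonoid G)) : g.Quot) = 1 := rfl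
    show p₁ (f ((1 : StdSimplex ℝ (FreeMonoid G)) : g.Quot)) = 1
    rw [this, map_one, hone₁]
  · have : ((1 : StdSimplex ℝ (FreeMonoid G)) : g.Quot) = 1 := rfl
    show p₂ (f ((1 : StdSimplex ℝ (FreeMonoid G)) : g.Quot)) = 1
    rw [this, map_one, hone₂]
  · intro μ
    exact hpos₁ _
  · intro μ
    exact hle₁ _
  · intro μ
    exact hsq₁ _
  · intro n
    obtain ⟨x⟩ := ‹Nonempty A›
    let w : FreeMonoid A := FreeMonoid.ofList (List.replicate n x)
    obtain ⟨y, hy⟩ := f.surjective (((StdSimplex.single w : StdSimplex ℝ (FreeMonoid A))) : c.Quot)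
    obtain ⟨μ, rfl⟩ := Con.mk'_surjective (c := g.toCon) y
    refine ⟨μ, ?_, ?_⟩
    · show p₁ (f (μ : g.Quot)) = _
      have : f (μ : g.Quot) = ((StdSimplex.single w : StdSimplex ℝ (FreeMonoid A)) : c.Quot) := hy
      rw [this, hp₁mk, ev_single, lenChar_apply]
      simp [w]
    · show p₂ (f (μ : g.Quot)) = _
      have : f (μ : g.Quot) = ((StdSimplex.single w : StdSimplex ℝ (FreeMonoid A)) : c.Quot) := hy
      rw [this, hp₂mk, ev_single, lenChar_apply]
      simp [w]
  · intro μ ν
    constructor
    · intro h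
      have h' : (μ : g.Quot) = (ν : g.Quot) := (Con.eq _).2 h
      show p₁ (f (μ : g.Quot)) = p₁ (f (ν : g.Quot)) ∧ p₂ (f (μ : g.Quot)) = p₂ (f (ν : g.Quot))
      rw [h']
      exact ⟨rfl, rfl⟩
    · rintro ⟨h1, h2⟩
      have h3 : f (μ : g.Quot) = f (ν : g.Quot) := hsep _ _ h1 h2
      exact (Con.eq _).1 (f.injective h3)

end

end Pool.Agent.Results.MP_492578_lc.NotFinPres
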